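import Mathlib

/-!
Varieties of Lie algebras over a field: the definitions used in the statement of
`Pool.Agent.Results.MP_48d723_al.AbelianByOneIdentity.result`.
-/

set_option autoImplicit false

namespace Pool.Agent.helper47.LVP

universe u

/-- The Lie algebra `L` satisfies the identity `f = 0`: every value of `f` in `L` is zero. -/
def Satisfies {F : Type} [Field F] (L : Type u) [LieRing L] [LieAlgebra F L]
    (f : FreeLieAlgebra F ℕ) : Prop :=
  ∀ φ : ℕ → L, FreeLieAlgebra.lift F φ f = 0

/-- `L` lies in the variety defined by the set of identities `B`. -/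
def InVar {F : Type} [Field F] (B : Set (FreeLieAlgebra F ℕ)) (L : Type u) [LieRing L]
    [LieAlgebra F L] : Prop :=
  ∀ b ∈ B, Satisfies L b

/-- `L` lies in the product of the varieties defined by `A` and by `B`: it has an ideal in the
first one whose quotient is in the second one. -/
def InProduct {F : Type} [Field F] (A B : Set (FreeLieAlgebra F ℕ)) (L : Type u) [LieRing L]
    [LieAlgebra F L] : Prop :=
  ∃ I : LieIdeal F L, InVar A I ∧ InVar B (L ⧸ I)

/-- `g = 0` is an identity of the variety defined by `B` (in the universe `u`). -/
def IsIdentity {F : Type} [Field F] (B : Set (FreeLieAlgebra F ℕ)) (g : FreeLieAlgebra F ℕ) :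
    Prop :=
  ∀ (M : Type u) [LieRing M] [LieAlgebra F M], InVar B M → Satisfies M g

/-- `L` lies in the commutator of the varieties defined by `A` and by `B`: it satisfies all
identities `[g, h] = 0` with `g = 0` an identity of the first one and `h = 0` an identity of the
second one, in disjoint sets of variables. -/
def InCommutator {F : Type} [Field F] (A B : Set (FreeLieAlgebra F ℕ)) (L : Type u) [LieRing L]
    [LieAlgebra F L] : Prop :=
  ∀ g h : FreeLieAlgebra F ℕ, IsIdentity.{u} A g → IsIdentity.{u} B h →
    ∀ φ ψ : ℕ → L, ⁅FreeLieAlgebra.lift F φ g, FreeLieAlgebra.lift F ψ h⁆ = 0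

end Pool.Agent.helper47.LVP
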