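import Mathlib
import Pool.Agent.helper47.HeisBad
import Pool.Agent.helper47.LVP.Defs

/-!
Universe polymorphic version of the argument: the product of the variety of abelian Lie algebras
and the variety given by the identity `fid` over the field with two elements has no finite basis,
and it is the commutator variety of the latter variety with itself.
-/

set_option autoImplicit false

namespace Pool.Agent.helper47.LVP

universe u v

section general

variable {F : Type} [Field F]

lemma map_lift {L : Type u} {L' : Type v} [LieRing L] [LieAlgebra F L] [LieRing L']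
    [LieAlgebra F L'] (g : L →ₗ⁅F⁆ L') (φ : ℕ → L) (a : FreeLieAlgebra F ℕ) :
    g (FreeLieAlgebra.lift F φ a) = FreeLieAlgebra.lift F (g ∘ φ) a := by
  have h : g.comp (FreeLieAlgebra.lift F φ) = FreeLieAlgebra.lift F (g ∘ φ) := by
    apply FreeLieAlgebra.hom_ext
    intro n
    simp [FreeLieAlgebra.lift_of_apply]
  exact congrArg (fun k => k a) h

/-- the quotient map as a Lie algebra morphism -/
def qmk {L : Type u} [LieRing L] [LieAlgebra F L] (I : LieIdeal F L) : L →ₗ⁅F⁆ L ⧸ I :=
  { (LieSubmodule.Quotient.mk' I : L →ₗ[F] L ⧸ I) with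
    map_lie' := by
      intro x y
      exact LieSubmodule.Quotient.mk_bracket I x y }

lemma qmk_surj {L : Type u} [LieRing L] [LieAlgebra F L] (I : LieIdeal F L) :
    Function.Surjective (qmk I) := LieSubmodule.Quotient.surjective_mk' I

lemma qmk_eq_zero {L : Type u} [LieRing L] [LieAlgebra F L] (I : LieIdeal F L) (x : L) :
    qmk I x = 0 ↔ x ∈ I := LieSubmodule.Quotient.mk_eq_zero I

/-- the set of values of an identity -/
def vals (f : FreeLieAlgebra F ℕ) (L : Type u) [LieRing L] [LieAlgebra F L] : Set L :=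
  {u | ∃ φ : ℕ → L, u = FreeLieAlgebra.lift F φ f}

/-- the verbal ideal of an identity -/
def verbal (f : FreeLieAlgebra F ℕ) (L : Type u) [LieRing L] [LieAlgebra F L] : LieIdeal F L :=
  LieSubmodule.lieSpan F L (vals f L)

lemma lift_mem_verbal (f : FreeLieAlgebra F ℕ) {L : Type u} [LieRing L] [LieAlgebra F L]
    (φ : ℕ → L) : FreeLieAlgebra.lift F φ f ∈ verbal f L :=
  LieSubmodule.subset_lieSpan ⟨φ, rfl⟩

lemma quot_verbal (f : FreeLieAlgebra F ℕ) {L : Type u} [LieRing L] [LieAlgebra F L]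
    (I : LieIdeal F L) (hI : verbal f L ≤ I) (φ : ℕ → L ⧸ I) :
    FreeLieAlgebra.lift F φ f = 0 := by
  choose ψ hψ using fun n => qmk_surj I (φ n)
  have h1 : φ = qmk I ∘ ψ := by
    funext n
    exact (hψ n).symm
  rw [h1, ← map_lift, qmk_eq_zero]
  exact hI (lift_mem_verbal f ψ)

lemma verbal_lift (f : FreeLieAlgebra F ℕ) {L : Type u} {L' : Type v} [LieRing L]
    [LieAlgebra F L] [LieRing L'] [LieAlgebra F L'] (g : L →ₗ⁅F⁆ L')
    (hg : Function.Surjective g) (u : L') (hu : u ∈ verbal f L') :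
    ∃ v ∈ verbal f L, g v = u := by
  induction hu using LieSubmodule.lieSpan_induction with
  | mem u hu =>
    obtain ⟨φ, rfl⟩ := hu
    choose ψ hψ using fun n => hg (φ n)
    refine ⟨_, lift_mem_verbal f ψ, ?_⟩
    rw [map_lift]
    congr 2
    funext n
    exact hψ n
  | zero => exact ⟨0, LieSubmodule.zero_mem _, map_zero g⟩
  | add u u' _ _ h1 h2 =>
    obtain ⟨v, hv, rfl⟩ := h1
    obtain ⟨v', hv', rfl⟩ := h2
    exact ⟨v + v', add_mem hv hv', map_add g v v'⟩
  | smul c u _ h1 =>
    obtain ⟨v, hv, rfl⟩ := h1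
    exact ⟨c • v, SMulMemClass.smul_mem _ hv, map_smul g c v⟩
  | lie x u _ h1 =>
    obtain ⟨v, hv, rfl⟩ := h1
    obtain ⟨w, rfl⟩ := hg x
    exact ⟨⁅w, v⁆, LieSubmodule.lie_mem _ hv, LieHom.map_lie g w v⟩

/-- the verbal ideal is abelian -/
def VerbAb (f : FreeLieAlgebra F ℕ) (L : Type u) [LieRing L] [LieAlgebra F L] : Prop :=
  ∀ x ∈ verbal f L, ∀ y ∈ verbal f L, ⁅x, y⁆ = 0

lemma VerbAb.of_surj {f : FreeLieAlgebra F ℕ} {L : Type u} {L' : Type v} [LieRing L]
    [LieAlgebra F L] [LieRing L'] [LieAlgebra F L'] (g : L →ₗ⁅F⁆ L')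
    (hg : Function.Surjective g) (h : VerbAb f L) : VerbAb f L' := by
  intro x hx y hy
  obtain ⟨x', hx', rfl⟩ := verbal_lift f g hg x hx
  obtain ⟨y', hy', rfl⟩ := verbal_lift f g hg y hy
  rw [← LieHom.map_lie, h x' hx' y' hy', map_zero]

lemma Satisfies.of_surj {f : FreeLieAlgebra F ℕ} {L : Type u} {L' : Type v} [LieRing L]
    [LieAlgebra F L] [LieRing L'] [LieAlgebra F L'] (g : L →ₗ⁅F⁆ L')
    (hg : Function.Surjective g) (h : Satisfies L f) : Satisfies L' f := by
  intro φ
  choose ψ hψ using fun n => hg (φ n)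
  have h1 : φ = g ∘ ψ := by
    funext n
    exact (hψ n).symm
  rw [h1, ← map_lift, h ψ, map_zero]

/-- the commutativity identity -/
noncomputable def comm2 : FreeLieAlgebra F ℕ := ⁅FreeLieAlgebra.of F 0, FreeLieAlgebra.of F 1⁆

lemma lift_comm2 {L : Type u} [LieRing L] [LieAlgebra F L] (φ : ℕ → L) :
    FreeLieAlgebra.lift F φ comm2 = ⁅φ 0, φ 1⁆ := by
  simp [comm2, FreeLieAlgebra.lift_of_apply]

/-- membership in the product of the abelian variety and the variety of `f` -/
lemma inProduct_iff (f : FreeLieAlgebra F ℕ) (L : Type u) [LieRing L] [LieAlgebra F L] :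
    InProduct {(comm2 : FreeLieAlgebra F ℕ)} {f} L ↔ VerbAb f L := by
  constructor
  · rintro ⟨I, h1, h2⟩ x hx y hy
    have h1' := h1 comm2 rfl
    have h2' := h2 f rfl
    have hle : verbal f L ≤ I := by
      unfold verbal
      rw [LieSubmodule.lieSpan_le]
      rintro w ⟨φ, rfl⟩
      change _ ∈ I
      rw [← qmk_eq_zero, map_lift]
      exact h2' _
    have h3 := h1' (fun n => match n with
      | 0 => ⟨x, hle hx⟩ | _ => ⟨y, hle hy⟩)
    rw [lift_comm2] at h3
    exact congrArg Subtype.val h3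
  · intro h
    refine ⟨verbal f L, ?_, ?_⟩
    · rintro b rfl φ
      rw [lift_comm2]
      apply Subtype.ext
      rw [LieIdeal.coe_bracket_of_module]
      exact h _ (φ 0).2 _ (φ 1).2
    · rintro b rfl φ
      exact quot_verbal b _ le_rfl φ

lemma isIdentity_self (f : FreeLieAlgebra F ℕ) : IsIdentity.{u} {f} f :=
  fun _ _ _ h => h f rfl

/-- a value after a renaming of the variables -/
lemma lift_rename {L : Type u} [LieRing L] [LieAlgebra F L] (e : ℕ → ℕ) (φ : ℕ → L)
    (g : FreeLieAlgebra F ℕ) :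
    FreeLieAlgebra.lift F φ (FreeLieAlgebra.lift F (FreeLieAlgebra.of F ∘ e) g) =
      FreeLieAlgebra.lift F (φ ∘ e) g := by
  rw [map_lift]
  congr 2
  funext n
  simp [FreeLieAlgebra.lift_of_apply]

lemma IsIdentity.rename {B : Set (FreeLieAlgebra F ℕ)} {g : FreeLieAlgebra F ℕ}
    (hg : IsIdentity.{u} B g) (e : ℕ → ℕ) :
    IsIdentity.{u} B (FreeLieAlgebra.lift F (FreeLieAlgebra.of F ∘ e) g) := by
  intro M _ _ hM φ
  rw [lift_rename]
  exact hg M hM _

/-- every element of the verbal ideal is a value of an identity of the variety -/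
lemma verbal_value (f : FreeLieAlgebra F ℕ) {L : Type u} [LieRing L] [LieAlgebra F L] (x : L)
    (hx : x ∈ verbal f L) :
    ∃ g : FreeLieAlgebra F ℕ, IsIdentity.{u} {f} g ∧ ∃ φ : ℕ → L,
      FreeLieAlgebra.lift F φ g = x := by
  induction hx using LieSubmodule.lieSpan_induction with
  | mem u hu =>
    obtain ⟨φ, rfl⟩ := hu
    exact ⟨f, isIdentity_self f, φ, rfl⟩
  | zero => exact ⟨0, fun M _ _ _ φ => map_zero _, fun _ => 0, map_zero _⟩
  | add u u' _ _ h1 h2 =>
    obtain ⟨g, hg, φ, rfl⟩ := h1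
    obtain ⟨g', hg', φ', rfl⟩ := h2
    refine ⟨FreeLieAlgebra.lift F (FreeLieAlgebra.of F ∘ fun n => 2 * n) g +
      FreeLieAlgebra.lift F (FreeLieAlgebra.of F ∘ fun n => 2 * n + 1) g', ?_,
      fun n => if n % 2 = 0 then φ (n / 2) else φ' (n / 2), ?_⟩
    · intro M _ _ hM ψ
      rw [map_add, hg.rename _ M hM ψ, hg'.rename _ M hM ψ, add_zero]
    · rw [map_add, lift_rename, lift_rename]
      congr 3
      · funext n
        simp
      · funext n
        have e1 : (2 * n + 1) % 2 = 1 := by omega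
        have e2 : (2 * n + 1) / 2 = n := by omega
        simp [e1, e2]
  | smul c u _ h1 =>
    obtain ⟨g, hg, φ, rfl⟩ := h1
    refine ⟨c • g, ?_, φ, map_smul _ _ _⟩
    intro M _ _ hM ψ
    rw [map_smul, hg M hM ψ, smul_zero]
  | lie x u _ h1 =>
    obtain ⟨g, hg, φ, rfl⟩ := h1
    refine ⟨⁅FreeLieAlgebra.of F 0, FreeLieAlgebra.lift F (FreeLieAlgebra.of F ∘
      fun n => n + 1) g⁆, ?_, fun n => match n with | 0 => x | n + 1 => φ n, ?_⟩
    · intro M _ _ hM ψ
      rw [LieHom.map_lie, hg.rename _ M hM ψ, lie_zero]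
    · rw [LieHom.map_lie, lift_rename, FreeLieAlgebra.lift_of_apply]
      rfl

/-- membership in the commutator of the variety of `f` with itself -/
lemma inCommutator_iff (f : FreeLieAlgebra F ℕ) (L : Type u) [LieRing L] [LieAlgebra F L] :
    InCommutator {f} {f} L ↔ VerbAb f L := by
  constructor
  · intro h x hx y hy
    obtain ⟨g, hg, φ, rfl⟩ := verbal_value f x hx
    obtain ⟨g', hg', φ', rfl⟩ := verbal_value f y hy
    exact h g g' hg hg' φ φ'
  · intro h g g' hg hg' φ ψ
    have key : ∀ (g : FreeLieAlgebra F ℕ), IsIdentity.{u} {f} g → ∀ φ : ℕ → L,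
        FreeLieAlgebra.lift F φ g ∈ verbal f L := by
      intro g hg φ
      rw [← qmk_eq_zero, map_lift]
      apply hg (L ⧸ verbal f L)
      rintro b rfl ψ
      exact quot_verbal b _ le_rfl ψ
    exact h _ (key g hg φ) _ (key g' hg' ψ)

end general

section ulift

variable {F : Type} [Field F]

noncomputable instance instULiftBracket {L : Type u} [LieRing L] :
    Bracket (ULift.{v} L) (ULift.{v} L) :=
  ⟨fun a b => ⟨⁅a.down, b.down⁆⟩⟩

noncomputable instance instULiftLieRing {L : Type u} [LieRing L] : LieRing (ULift.{v} L) where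
  add_lie a b c := ULift.ext _ _ (add_lie a.down b.down c.down)
  lie_add a b c := ULift.ext _ _ (lie_add a.down b.down c.down)
  lie_self a := ULift.ext _ _ (lie_self a.down)
  leibniz_lie a b c := ULift.ext _ _ (leibniz_lie a.down b.down c.down)

noncomputable instance instULiftLieAlgebra {L : Type u} [LieRing L] [LieAlgebra F L] :
    LieAlgebra F (ULift.{v} L) where
  lie_smul t a b := ULift.ext _ _ (lie_smul t a.down b.down)

/-- the lift to a higher universe -/
def upHom (L : Type u) [LieRing L] [LieAlgebra F L] : L →ₗ⁅F⁆ ULift.{v} L where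
  toFun a := ⟨a⟩
  map_add' _ _ := rfl
  map_smul' _ _ := rfl
  map_lie' := rfl

/-- the inverse of the lift -/
def downHom (L : Type u) [LieRing L] [LieAlgebra F L] : ULift.{v} L →ₗ⁅F⁆ L where
  toFun a := a.down
  map_add' _ _ := rfl
  map_smul' _ _ := rfl
  map_lie' := rfl

lemma upHom_surj (L : Type u) [LieRing L] [LieAlgebra F L] :
    Function.Surjective (upHom.{u, v} (F := F) L) := fun a => ⟨a.down, rfl⟩

lemma downHom_surj (L : Type u) [LieRing L] [LieAlgebra F L] :
    Function.Surjective (downHom.{u, v} (F := F) L) := fun a => ⟨⟨a⟩, rfl⟩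

end ulift

/-- the relatively free algebra has an abelian verbal ideal -/
lemma verbAb_free {F : Type} [Field F] (f : FreeLieAlgebra F ℕ) :
    VerbAb f (FreeLieAlgebra F ℕ ⧸ ⁅verbal f (FreeLieAlgebra F ℕ),
      verbal f (FreeLieAlgebra F ℕ)⁆) := by
  intro u hu v hv
  obtain ⟨u', hu', rfl⟩ := verbal_lift f (qmk _) (qmk_surj _) u hu
  obtain ⟨v', hv', rfl⟩ := verbal_lift f (qmk _) (qmk_surj _) v hv
  rw [← LieHom.map_lie, qmk_eq_zero]
  exact LieSubmodule.lie_mem_lie hu' hv'

lemma Bad.not_verbAb {P : HChain} (hP : P.Bad) : ¬ VerbAb fid P.K := by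
  intro h
  obtain ⟨u, v, hu, hv, l, hne⟩ := hP
  apply hne
  have hfold : ∀ (l : List P.K) (w : P.K), w ∈ verbal fid P.K →
      l.foldl (fun p q => ⁅p, q⁆) w ∈ verbal fid P.K := by
    intro l
    induction l with
    | nil => intro w hw; exact hw
    | cons q l ih =>
      intro w hw
      apply ih
      exact lie_mem_left _ _ (verbal fid P.K) _ _ hw
  exact h _ (hfold l u (LieSubmodule.subset_lieSpan hu)) v (LieSubmodule.subset_lieSpan hv)

/-- The main step: no finite set of identities defines the Lie algebras with abelian verbal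
ideal. -/
theorem main_poly (C : Finset (FreeLieAlgebra (ZMod 2) ℕ)) :
    ∃ (L : Type u) (_ : LieRing L) (_ : LieAlgebra (ZMod 2) L),
      ¬ (VerbAb fid L ↔ InVar (C : Set (FreeLieAlgebra (ZMod 2) ℕ)) L) := by
  by_contra hcon
  push Not at hcon
  have h0 := (hcon (ULift.{u} (FreeLieAlgebra (ZMod 2) ℕ ⧸
    ⁅verbal fid (FreeLieAlgebra (ZMod 2) ℕ), verbal fid (FreeLieAlgebra (ZMod 2) ℕ)⁆))
      inferInstance inferInstance).1
      ((verbAb_free fid).of_surj (upHom _) (upHom_surj _))
  have h1 : ∀ c ∈ C, ∃ i : ℕ, ∀ (P : HChain), i ≤ P.k → ∀ (φ : ℕ → P.K),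
      FreeLieAlgebra.lift (ZMod 2) φ c = 0 := by
    intro c hc
    apply comm_level
    have h2 := (h0 c hc).of_surj (downHom _) (downHom_surj _)
      (qmk _ ∘ FreeLieAlgebra.of (ZMod 2))
    rw [← map_lift, qmk_eq_zero] at h2
    have h3 : FreeLieAlgebra.lift (ZMod 2) (FreeLieAlgebra.of (ZMod 2) : ℕ → _) c = c := by
      have : FreeLieAlgebra.lift (ZMod 2) (FreeLieAlgebra.of (ZMod 2) : ℕ → _) =
          (LieHom.id : FreeLieAlgebra (ZMod 2) ℕ →ₗ⁅ZMod 2⁆ FreeLieAlgebra (ZMod 2) ℕ) := by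
        apply FreeLieAlgebra.hom_ext
        intro n
        simp [FreeLieAlgebra.lift_of_apply]
      rw [this]
      rfl
    rw [h3] at h2
    exact h2
  choose! g hg using h1
  have h4 := (hcon (ULift.{u} (chain (C.sup g)).K) inferInstance inferInstance).2 (by
    intro c hc
    apply Satisfies.of_surj (upHom _) (upHom_surj _)
    intro φ
    exact hg c hc (chain (C.sup g)) (Finset.le_sup (f := g) hc) φ)
  exact Bad.not_verbAb (chain_bad _) (h4.of_surj (downHom _) (downHom_surj _))

end Pool.Agent.helper47.LVP
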